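import Pool.Agent.H453R2.JS.All

/-!
# Three-machine job shop, parameterized by `p_max + n_max`

Every nondeterministic machine with several stacks can be simulated by three-machine job shops with
at most four operations per job: for an input `x`, `b` blocks of length `w` per stack and a time
bound `n ≥ 2 ^ (w + 1)` the processing times are only `O((b + 1) ^ 2)`.  Consequently
`J3||C_max` is not fixed-parameter tractable in `p_max + n_max` (and, for jobs with at most four
operations, not in `p_max`) unless all languages accepted nondeterministically in time
`2 ^ o(ℓ)` and linear space are decided in deterministic time `2 ^ o(ℓ)`.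
-/

namespace Pool.Agent.Results.MP_a4d309_lc.NotFPT

open Pool.Agent.NPC Pool.Agent.H633R2 Pool.Agent.H453R2.JS

/-- **`J3||C_max` parameterized by `p_max + n_max`.**  (1) For every nondeterministic machine `M`
with several stacks there is a polynomial-time map from `(x, 1^w, 1^b, 1^n)` to instances of
`J3||C_max` with at most four operations per job and processing times `O((b + 1) ^ 2)` such that,
if `|x| ≤ b * w` and `2 ^ (w + 1) ≤ n`: if the instance is solvable then `M` accepts `x`, and if
`M` accepts `x` within time `n` and space `b * w` (per stack) then the instance is solvable.
(2) If `J3||C_max` is fixed-parameter tractable in `p_max + n_max` (decision version, or its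
restriction to at most four operations per job with the parameter `p_max`, or the computation of
the minimal makespan) then every language accepted by a nondeterministic machine in time
`2 ^ o(ℓ)` and linear space is decided by deterministic Turing machines in time `2 ^ o(ℓ)`. -/
theorem result :
    (∀ M : Mach, ∃ (f : List Bool × List Unit × List Unit × List Unit → List Job × ℕ) (c : ℕ),
      Poly f ∧ ∀ (x : List Bool) (w b n : ℕ),
        nmax (f (x, List.replicate w (), List.replicate b (), List.replicate n ())).1 ≤ 4 ∧
        pmax (f (x, List.replicate w (), List.replicate b (), List.replicate n ())).1 ≤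
          c * (b + 1) ^ 2 ∧
        (1 ≤ b → 1 ≤ w → x.length ≤ b * w → 2 ^ (w + 1) ≤ n →
          (JobShop (f (x, List.replicate w (), List.replicate b (), List.replicate n ())) →
            Accepts M x) ∧
          (AcceptsIn M x n (b * w) →
            JobShop (f (x, List.replicate w (), List.replicate b (), List.replicate n ()))))) ∧
    (IsFpt (fun I : List Job × ℕ => pmax I.1 + nmax I.1) JobShop ∨
      IsFpt (fun I : List Job × ℕ => pmax I.1) JobShop4 ∨
      FptTime (fun J : List Job => pmax J + nmax J) optC →
      ∀ L : Set (List Bool), InNTISP L → InSubexp L) := by
  refine ⟨RED_holds, ?_⟩
  rintro (h | h | h)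
  · exact kap_holds h
  · exact four_holds h
  · exact opt_holds h

end Pool.Agent.Results.MP_a4d309_lc.NotFPT
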